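import Pool.Agent.Work.PG.FamMain

/-!
# Closed geodesics are dense on closed surfaces with integrable geodesic flow
-/

set_option autoImplicit false

open Set
open scoped ContDiff InnerProductSpace

namespace Pool.Agent.Results.MP_a88824_gt.IntegrableDensity

open Pool.Agent.PG

/-- Let `M` be a closed smooth surface in a Euclidean space, with the induced metric, and `A` a
set of smooth first integrals of its geodesic flow. Suppose that each unit tangent vector which is
critical for all `F ∈ A` is a transversally nondegenerate critical vector of some `F ∈ A`, or
that all these vectors are tangent to closed geodesics and `A` is tame. Then the closed geodesics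
are dense in `M`. -/
theorem result {n : ℕ} {M : Set (EuclideanSpace ℝ (Fin n))} (hM : IsClosedSurface M)
    {A : Set (EuclideanSpace ℝ (Fin n) × EuclideanSpace ℝ (Fin n) → ℝ)}
    (hA : ∀ F ∈ A, IsFirstIntegral M F)
    (h : (∀ z ∈ JointCritical M A, ∃ F ∈ A, TransversallyNondegenerate M F z) ∨
      (JointlyPeriodic M A ∧ JointlyTame M A)) :
    M ⊆ closure (closedGeodesicSet M) :=
  dense_family hM hA h

end Pool.Agent.Results.MP_a88824_gt.IntegrableDensity
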